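import Pool.Agent.Y301.CG.One

/-!
# Concavity in one player's pair of masses (cryptogenography project, `S_CON`)
-/

open MeasureTheory Finset Set Filter Topology

namespace Pool.Agent.Y301.CG

open Pool.Agent.Y171.CG

theorem upd_eq {k : ℕ} (m : Bool → Fin k → ℝ) (i : Fin k) (y : Bool → ℝ) (x : Bool) :
    upd m i y x = Function.update (m x) i (y x) := by
  funext j
  unfold upd
  by_cases h : j = i
  · subst h; simp
  · simp [h]

theorem one_sub_update {k : ℕ} (x : Fin k → ℝ) (i : Fin k) (t : ℝ) :
    (fun j => 1 - Function.update x i t j) = Function.update (fun j => 1 - x j) i (1 - t) := by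
  funext j
  by_cases h : j = i
  · subst h; simp
  · simp [Function.update_of_ne h]

/-- The event of a hit. -/
def Ev {k : ℕ} (g : ℕ → ℝ) (m : Bool → Fin k → ℝ) (z : ℝ) : Set (Fin k → ℝ) :=
  {u | Hit g (m false) z u ∨ Hit g (m true) z (fun i => 1 - u i)}

theorem measurable_Ev {k : ℕ} (g : ℕ → ℝ) (m : Bool → Fin k → ℝ) (z : ℝ) :
    MeasurableSet (Ev g m z) :=
  (measurableSet_hit g (m false) z).union (measurableSet_hitR g (m true) z)

theorem B_eq {k : ℕ} (g : ℕ → ℝ) (m : Bool → Fin k → ℝ) (z : ℝ) :
    ENNReal.ofReal (B g m z) = cube k (Ev g m z) := by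
  unfold B
  exact ofReal_measureReal (measure_ne_top _ _)

theorem t_CON : S_CON := by
  intro k g m i z y y' c c' hg hm hz hy hy' hc hc' hcc
  obtain ⟨y3, hy3⟩ : ∃ y3 : Bool → ℝ, y3 = fun x => c * y x + c' * y' x := ⟨_, rfl⟩
  have hy3' : ∀ x, y3 x = c * y x + c' * y' x := fun x => by rw [hy3]
  rw [← hy3]
  have key : ENNReal.ofReal c * cube k (Ev g (upd m i y) z) +
      ENNReal.ofReal c' * cube k (Ev g (upd m i y') z) ≤
      cube k (Ev g (upd m i y3) z) := by
    rw [measure_coord _ (measurable_Ev g (upd m i y) z) i,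
      measure_coord _ (measurable_Ev g (upd m i y') z) i,
      measure_coord _ (measurable_Ev g (upd m i y3) z) i]
    refine (add_le_add (lintegral_const_mul_le _ _) (lintegral_const_mul_le _ _)).trans ?_
    refine (le_lintegral_add _ _).trans ?_
    apply lintegral_mono
    intro x
    obtain ⟨b0, G0, hG0, -, h0⟩ := one g hg (m false) x i z hz
    obtain ⟨b1, G1, hG1, -, h1⟩ := one g hg (m true) (fun j => 1 - x j) i z hz
    have hev : ∀ w : Bool → ℝ, (∀ x, 0 ≤ w x) →
        nu {t | Function.update x i t ∈ Ev g (upd m i w) z} =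
          nu {t | (b0 ∨ t * z < G0 * w false) ∨ (b1 ∨ (1 - t) * z < G1 * w true)} := by
      intro w hw
      apply nu_congr
      intro t ht0 ht1
      unfold Ev
      rw [Set.mem_ofPred_eq, upd_eq, upd_eq, one_sub_update, h0 t _ ht0 (hw false),
        h1 (1 - t) _ (by linarith) (hw true)]
    have hw3 : ∀ x : Bool, 0 ≤ y3 x := fun x => by
      rw [hy3' x]
      exact add_nonneg (mul_nonneg hc.le (hy x)) (mul_nonneg hc'.le (hy' x))
    show ENNReal.ofReal c * nu {t | Function.update x i t ∈ Ev g (upd m i y) z} +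
      ENNReal.ofReal c' * nu {t | Function.update x i t ∈ Ev g (upd m i y') z} ≤
      nu {t | Function.update x i t ∈ Ev g (upd m i y3) z}
    rw [hev y hy, hev y' hy', hev y3 hw3]
    by_cases hb : b0 ∨ b1
    · have hall : ∀ w : Bool → ℝ,
          nu {t | (b0 ∨ t * z < G0 * w false) ∨ (b1 ∨ (1 - t) * z < G1 * w true)} = 1 := by
        intro w
        have : {t : ℝ | (b0 ∨ t * z < G0 * w false) ∨ (b1 ∨ (1 - t) * z < G1 * w true)} =
            Set.univ := by
          ext t
          simp only [Set.mem_ofPred_eq, Set.mem_univ, iff_true]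
          tauto
        rw [this, measure_univ]
      rw [hall y, hall y', hall y3, mul_one, mul_one, ← ENNReal.ofReal_add hc.le hc'.le, hcc,
        ENNReal.ofReal_one]
    · push Not at hb
      have hnone : ∀ w : Bool → ℝ, (∀ x, 0 ≤ w x) →
          nu {t | (b0 ∨ t * z < G0 * w false) ∨ (b1 ∨ (1 - t) * z < G1 * w true)} =
            ENNReal.ofReal (min 1 ((G0 * w false + G1 * w true) / z)) := by
        intro w hw
        rw [← nu_anti (mul_nonneg hG0 (hw false)) (mul_nonneg hG1 (hw true)) hz]
        congr 1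
        ext t
        simp only [Set.mem_ofPred_eq, hb.1, hb.2, false_or]
      rw [hnone y hy, hnone y' hy', hnone y3 hw3, hy3', hy3', ← ENNReal.ofReal_mul hc.le,
        ← ENNReal.ofReal_mul hc'.le, ← ENNReal.ofReal_add]
      · apply ENNReal.ofReal_le_ofReal
        apply le_min
        · have e1 : min 1 ((G0 * y false + G1 * y true) / z) ≤ 1 := min_le_left _ _
          have e2 : min 1 ((G0 * y' false + G1 * y' true) / z) ≤ 1 := min_le_left _ _
          nlinarith
        · have e1 : min 1 ((G0 * y false + G1 * y true) / z) ≤ (G0 * y false + G1 * y true) / z :=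
            min_le_right _ _
          have e2 : min 1 ((G0 * y' false + G1 * y' true) / z) ≤
              (G0 * y' false + G1 * y' true) / z := min_le_right _ _
          have e3 := mul_le_mul_of_nonneg_left e1 hc.le
          have e4 := mul_le_mul_of_nonneg_left e2 hc'.le
          refine (add_le_add e3 e4).trans (le_of_eq ?_)
          ring
      · exact mul_nonneg hc.le (le_min zero_le_one (div_nonneg (add_nonneg
          (mul_nonneg hG0 (hy false)) (mul_nonneg hG1 (hy true))) hz.le))
      · exact mul_nonneg hc'.le (le_min zero_le_one (div_nonneg (add_nonneg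
          (mul_nonneg hG0 (hy' false)) (mul_nonneg hG1 (hy' true))) hz.le))
  rw [← B_eq, ← B_eq, ← B_eq, ← ENNReal.ofReal_mul hc.le, ← ENNReal.ofReal_mul hc'.le,
    ← ENNReal.ofReal_add (mul_nonneg hc.le (B_nonneg _ _ _)) (mul_nonneg hc'.le (B_nonneg _ _ _)),
    ENNReal.ofReal_le_ofReal_iff (B_nonneg _ _ _)] at key
  exact key

end Pool.Agent.Y301.CG
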