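import Pool.Agent.Y301.CG.Conc

/-!
# Antithetic versus independent randomness (cryptogenography project, `S_HYB`)
-/

open MeasureTheory Finset Set Filter Topology

namespace Pool.Agent.Y301.CG

open Pool.Agent.Y171.CG

/-- The probability space: two numbers for each player. -/
noncomputable def Om (k : ℕ) : Measure (Fin k → ℝ × ℝ) := Measure.pi fun _ => nu.prod nu

instance (k : ℕ) : IsProbabilityMeasure (Om k) := by
  unfold Om; infer_instance

/-- The masses. -/
noncomputable def ms {k : ℕ} (J : Finset (Fin k)) (e : ℝ) : Fin k → ℝ :=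
  fun i => if i ∈ J then 1 + e else 1

/-- The second coordinates. -/
noncomputable def sc {k : ℕ} (J : Finset (Fin k)) (w : Fin k → ℝ × ℝ) : Fin k → ℝ :=
  fun i => if i ∈ J then (w i).2 else 1 - (w i).1

/-- The hybrid event. -/
def EJ {k : ℕ} (g : ℕ → ℝ) (e z : ℝ) (J : Finset (Fin k)) : Set (Fin k → ℝ × ℝ) :=
  {w | Hit g (ms J e) z (fun i => (w i).1) ∨ Hit g (ms J e) z (sc J w)}

theorem measurable_EJ {k : ℕ} (g : ℕ → ℝ) (e z : ℝ) (J : Finset (Fin k)) :
    MeasurableSet (EJ g e z J) := by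
  have h1 : Measurable (fun w : Fin k → ℝ × ℝ => fun i => (w i).1) := by fun_prop
  have h2 : Measurable (fun w : Fin k → ℝ × ℝ => sc J w) := by
    rw [measurable_pi_iff]
    intro i
    unfold sc
    by_cases h : i ∈ J
    · simp only [h, if_true]; fun_prop
    · simp only [h, if_false]; fun_prop
  exact (h1 (measurableSet_hit g (ms J e) z)).union (h2 (measurableSet_hit g (ms J e) z))

theorem om_coord {k : ℕ} (E : Set (Fin k → ℝ × ℝ)) (hE : MeasurableSet E) (i : Fin k) :
    Om k E = ∫⁻ x, (nu.prod nu) {t | Function.update x i t ∈ E} ∂Om k := by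
  have h := lintegral_coord (fun _ : Fin k => nu.prod nu) (E.indicator fun _ => 1)
    (measurable_const.indicator hE) i
  rw [lintegral_indicator_const hE, one_mul] at h
  unfold Om
  rw [h]
  apply lintegral_congr
  intro x
  have hm : MeasurableSet {t : ℝ × ℝ | Function.update x i t ∈ E} :=
    hE.preimage (measurable_update x)
  rw [← one_mul ((nu.prod nu) {t | Function.update x i t ∈ E}), ← lintegral_indicator_const hm]
  rfl

theorem fst_update {k : ℕ} (x : Fin k → ℝ × ℝ) (i : Fin k) (s : ℝ × ℝ) :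
    (fun j => (Function.update x i s j).1) = Function.update (fun j => (x j).1) i s.1 := by
  funext j
  by_cases h : j = i
  · subst h; simp
  · simp [Function.update_of_ne h]

theorem sc_update_not {k : ℕ} {J : Finset (Fin k)} {i : Fin k} (hi : i ∉ J)
    (x : Fin k → ℝ × ℝ) (s : ℝ × ℝ) :
    sc J (Function.update x i s) = Function.update (sc J x) i (1 - s.1) := by
  funext j
  unfold sc
  by_cases h : j = i
  · subst h; simp [hi]
  · simp [Function.update_of_ne h]

theorem sc_update_insert {k : ℕ} {J : Finset (Fin k)} {i : Fin k}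
    (x : Fin k → ℝ × ℝ) (s : ℝ × ℝ) :
    sc (insert i J) (Function.update x i s) = Function.update (sc J x) i s.2 := by
  funext j
  unfold sc
  by_cases h : j = i
  · subst h; simp
  · simp [Function.update_of_ne h, h]

theorem ms_not {k : ℕ} {J : Finset (Fin k)} {i : Fin k} (hi : i ∉ J) (e : ℝ) :
    ms J e = Function.update (ms J e) i 1 := by
  funext j
  by_cases h : j = i
  · subst h; simp [ms, hi]
  · simp [h]

theorem ms_insert {k : ℕ} {J : Finset (Fin k)} {i : Fin k} (e : ℝ) :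
    ms (insert i J) e = Function.update (ms J e) i (1 + e) := by
  funext j
  by_cases h : j = i
  · subst h; simp [ms]
  · simp [ms, h]

theorem nu2_congr {p q : ℝ × ℝ → Prop}
    (h : ∀ s : ℝ × ℝ, 0 ≤ s.1 → s.1 ≤ 1 → 0 ≤ s.2 → s.2 ≤ 1 → (p s ↔ q s)) :
    (nu.prod nu) {t | p t} = (nu.prod nu) {t | q t} := by
  unfold nu
  rw [Measure.prod_restrict, Measure.restrict_apply' (measurableSet_Icc.prod measurableSet_Icc),
    Measure.restrict_apply' (measurableSet_Icc.prod measurableSet_Icc)]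
  congr 1
  ext t
  simp only [Set.mem_inter_iff, Set.mem_ofPred_eq, Set.mem_prod, Set.mem_Icc]
  constructor
  · rintro ⟨h1, ⟨h2, h3⟩, h4, h5⟩
    exact ⟨(h t h2 h3 h4 h5).1 h1, ⟨h2, h3⟩, h4, h5⟩
  · rintro ⟨h1, ⟨h2, h3⟩, h4, h5⟩
    exact ⟨(h t h2 h3 h4 h5).2 h1, ⟨h2, h3⟩, h4, h5⟩

/-- Marginal. -/
theorem nu2_fst (s : Set ℝ) : (nu.prod nu) {t | t.1 ∈ s} = nu s := by
  have : {t : ℝ × ℝ | t.1 ∈ s} = s ×ˢ Set.univ := by ext t; simp
  rw [this, Measure.prod_prod, measure_univ, mul_one]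

/-- The independent event of one player. -/
theorem nu2_indep {A C z : ℝ} (hA : 0 ≤ A) (hC : 0 ≤ C) (hz : 0 < z) (hAz : A ≤ z)
    (hCz : C ≤ z) :
    (nu.prod nu) {t | t.1 * z < A ∨ t.2 * z < C} =
      ENNReal.ofReal (1 - (1 - A / z) * (1 - C / z)) := by
  have hA1 : A / z ≤ 1 := (div_le_one hz).2 hAz
  have hC1 : C / z ≤ 1 := (div_le_one hz).2 hCz
  have hA0 : 0 ≤ A / z := div_nonneg hA hz.le
  have hC0 : 0 ≤ C / z := div_nonneg hC hz.le
  have hset : {t : ℝ × ℝ | t.1 * z < A ∨ t.2 * z < C} =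
      (({t : ℝ | t * z < A}ᶜ) ×ˢ ({t : ℝ | t * z < C}ᶜ))ᶜ := by
    ext t
    simp only [Set.mem_ofPred_eq, Set.mem_compl_iff, Set.mem_prod, not_and_or, not_not]
  have hm : ∀ D : ℝ, MeasurableSet {t : ℝ | t * z < D} := fun D =>
    measurableSet_lt (by fun_prop) measurable_const
  rw [hset, prob_compl_eq_one_sub ((hm A).compl.prod (hm C).compl), Measure.prod_prod,
    prob_compl_eq_one_sub (hm A), prob_compl_eq_one_sub (hm C), nu_lt hA hz hAz, nu_lt hC hz hCz,
    ← ENNReal.ofReal_one, ← ENNReal.ofReal_sub _ hA0, ← ENNReal.ofReal_sub _ hC0,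
    ← ENNReal.ofReal_mul (by linarith), ← ENNReal.ofReal_sub]
  exact mul_nonneg (by linarith) (by linarith)

/-- One step of the hybrid argument. -/
theorem step {k : ℕ} {g : ℕ → ℝ} {G e z : ℝ} (hg : ∀ r, 2 ≤ r → 0 ≤ g r ∧ g r ≤ G)
    (he : 0 < e) (he1 : e ≤ 1) (hz : 0 < z) (hG : (1 + e) ^ 2 * G ≤ 2 * e * z)
    (J : Finset (Fin k)) (i : Fin k) (hi : i ∉ J) :
    Om k (EJ g e z J) ≤ Om k (EJ g e z (insert i J)) := by
  rw [om_coord _ (measurable_EJ g e z J) i, om_coord _ (measurable_EJ g e z (insert i J)) i]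
  apply lintegral_mono
  intro x
  obtain ⟨b0, G0, hG0, hG0', h0⟩ := one g (fun r hr => (hg r hr).1) (ms J e)
    (fun j => (x j).1) i z hz
  obtain ⟨b1, G1, hG1, hG1', h1⟩ := one g (fun r hr => (hg r hr).1) (ms J e) (sc J x) i z hz
  have hG0G : G0 ≤ G := hG0' G fun r hr => (hg r hr).2
  have hG1G : G1 ≤ G := hG1' G fun r hr => (hg r hr).2
  show (nu.prod nu) {t | Function.update x i t ∈ EJ g e z J} ≤
    (nu.prod nu) {t | Function.update x i t ∈ EJ g e z (insert i J)}
  have e1 : (nu.prod nu) {t | Function.update x i t ∈ EJ g e z J} =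
      (nu.prod nu) {t | (b0 ∨ t.1 * z < G0) ∨ (b1 ∨ (1 - t.1) * z < G1)} := by
    apply nu2_congr
    intro s hs0 hs1 _ _
    unfold EJ
    rw [Set.mem_ofPred_eq, fst_update, sc_update_not hi, ms_not hi e, h0 s.1 1 hs0 zero_le_one,
      h1 (1 - s.1) 1 (by linarith) zero_le_one, mul_one, mul_one]
  have e2 : (nu.prod nu) {t | Function.update x i t ∈ EJ g e z (insert i J)} =
      (nu.prod nu) {t | (b0 ∨ t.1 * z < G0 * (1 + e)) ∨ (b1 ∨ t.2 * z < G1 * (1 + e))} := by
    apply nu2_congr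
    intro s hs0 hs1 hs2 _
    unfold EJ
    rw [Set.mem_ofPred_eq, fst_update, sc_update_insert, ms_insert, h0 s.1 (1 + e) hs0 (by linarith),
      h1 s.2 (1 + e) hs2 (by linarith)]
  rw [e1, e2]
  by_cases hb : b0 ∨ b1
  · have : {t : ℝ × ℝ | (b0 ∨ t.1 * z < G0 * (1 + e)) ∨ (b1 ∨ t.2 * z < G1 * (1 + e))} =
        Set.univ := by
      ext t
      simp only [Set.mem_ofPred_eq, Set.mem_univ, iff_true]
      tauto
    rw [this, measure_univ]
    exact prob_le_one
  · push Not at hb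
    have hGz : (1 + e) * G ≤ z := by
      have h2 : (1 + e) * ((1 + e) * G) ≤ (1 + e) * z := by nlinarith
      exact le_of_mul_le_mul_left h2 (by linarith)
    have hG00 : 0 ≤ G := hG0.trans hG0G
    have f1 : (nu.prod nu) {t : ℝ × ℝ | (b0 ∨ t.1 * z < G0) ∨ (b1 ∨ (1 - t.1) * z < G1)} =
        ENNReal.ofReal (min 1 ((G0 + G1) / z)) := by
      rw [← nu_anti hG0 hG1 hz, ← nu2_fst]
      congr 1
      ext t
      simp only [Set.mem_ofPred_eq, hb.1, hb.2, false_or]
    have f2 : (nu.prod nu) {t : ℝ × ℝ | (b0 ∨ t.1 * z < G0 * (1 + e)) ∨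
        (b1 ∨ t.2 * z < G1 * (1 + e))} =
        ENNReal.ofReal (1 - (1 - G0 * (1 + e) / z) * (1 - G1 * (1 + e) / z)) := by
      rw [← nu2_indep (mul_nonneg hG0 (by linarith)) (mul_nonneg hG1 (by linarith)) hz
        (by nlinarith) (by nlinarith)]
      congr 1
      ext t
      simp only [Set.mem_ofPred_eq, hb.1, hb.2, false_or]
    rw [f1, f2]
    apply ENNReal.ofReal_le_ofReal
    refine (min_le_right _ _).trans ?_
    have h3 : (1 + e) ^ 2 * (G0 * G1) ≤ e * z * (G0 + G1) := by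
      have h4 : G0 * G1 ≤ G * (G0 + G1) / 2 := by nlinarith
      have h5 : (1 + e) ^ 2 * (G0 * G1) ≤ (1 + e) ^ 2 * (G * (G0 + G1) / 2) :=
        mul_le_mul_of_nonneg_left h4 (by positivity)
      have h6 : (1 + e) ^ 2 * G * (G0 + G1) ≤ 2 * e * z * (G0 + G1) :=
        mul_le_mul_of_nonneg_right hG (by linarith)
      nlinarith
    have h7 : 1 - (1 - G0 * (1 + e) / z) * (1 - G1 * (1 + e) / z) - (G0 + G1) / z =
        (e * z * (G0 + G1) - (1 + e) ^ 2 * (G0 * G1)) / z ^ 2 := by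
      field_simp
      ring
    have h8 : 0 ≤ (e * z * (G0 + G1) - (1 + e) ^ 2 * (G0 * G1)) / z ^ 2 :=
      div_nonneg (by linarith) (by positivity)
    linarith

theorem steps {k : ℕ} {g : ℕ → ℝ} {G e z : ℝ} (hg : ∀ r, 2 ≤ r → 0 ≤ g r ∧ g r ≤ G)
    (he : 0 < e) (he1 : e ≤ 1) (hz : 0 < z) (hG : (1 + e) ^ 2 * G ≤ 2 * e * z)
    (J : Finset (Fin k)) : Om k (EJ g e z ∅) ≤ Om k (EJ g e z J) := by
  induction J using Finset.induction_on with
  | empty => exact le_rfl
  | insert i J hi ih => exact ih.trans (step hg he he1 hz hG J i hi)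

theorem om_empty {k : ℕ} (g : ℕ → ℝ) (e z : ℝ) :
    Om k (EJ g e z ∅) = ENNReal.ofReal (B g (fun (_ : Bool) (_ : Fin k) => (1 : ℝ)) z) := by
  rw [B_eq]
  have hmp : MeasurePreserving (fun (w : Fin k → ℝ × ℝ) (i : Fin k) => (w i).1) (Om k)
      (cube k) := by
    unfold Om cube
    exact measurePreserving_pi _ _ fun _ => measurePreserving_fst
  rw [← hmp.measure_preimage (measurable_Ev _ _ _).nullMeasurableSet]
  refine congrArg (Om k) ?_
  ext w
  have h1 : ms (∅ : Finset (Fin k)) e = fun _ => 1 := by funext j; simp [ms]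
  have h2 : sc (∅ : Finset (Fin k)) w = fun i => 1 - (w i).1 := by funext j; simp [sc]
  unfold EJ Ev
  simp only [Set.mem_ofPred_eq, Set.mem_preimage, h1, h2]

theorem hit_scale {k : ℕ} (g : ℕ → ℝ) {e z : ℝ} (he : 0 < e) (u : Fin k → ℝ) :
    Hit g (fun _ => 1 + e) z u ↔ Hit g (fun _ => 1) (z / (1 + e)) u := by
  have h1 : (0 : ℝ) < 1 + e := by linarith
  unfold Hit cnt
  have : ∀ r : ℕ, (univ.filter fun i => u i * z < g r * (1 + e)) =
      univ.filter fun i => u i * (z / (1 + e)) < g r * 1 := by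
    intro r
    apply Finset.filter_congr
    intro i _
    rw [mul_one, ← mul_div_assoc, div_lt_iff₀ h1]
  simp only [this]

theorem om_univ {k : ℕ} (g : ℕ → ℝ) {e z : ℝ} (he : 0 < e) :
    Om k (EJ g e z Finset.univ) = ENNReal.ofReal (1 - F g k (z / (1 + e)) ^ 2) := by
  have hmp : MeasurePreserving (MeasurableEquiv.arrowProdEquivProdArrow ℝ ℝ (Fin k)) (Om k)
      ((cube k).prod (cube k)) := by
    unfold Om cube
    exact measurePreserving_arrowProdEquivProdArrow ℝ ℝ (Fin k) (fun _ => nu) (fun _ => nu)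
  set N : Set (Fin k → ℝ) := {u | ¬ Hit g (fun _ => 1) (z / (1 + e)) u} with hN
  have hNm : MeasurableSet N := (measurableSet_hit g (fun _ => 1) (z / (1 + e))).compl
  have hpre : EJ g e z Finset.univ =
      (MeasurableEquiv.arrowProdEquivProdArrow ℝ ℝ (Fin k)) ⁻¹' (N ×ˢ N)ᶜ := by
    ext w
    have h1 : ms (Finset.univ : Finset (Fin k)) e = fun _ => 1 + e := by funext j; simp [ms]
    have h2 : sc (Finset.univ : Finset (Fin k)) w = fun i => (w i).2 := by funext j; simp [sc]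
    unfold EJ
    simp only [Set.mem_ofPred_eq, Set.mem_preimage, h1, h2, hit_scale g he, Set.mem_compl_iff,
      Set.mem_prod, hN, not_and_or, not_not]
    rfl
  rw [hpre, hmp.measure_preimage (hNm.prod hNm).compl.nullMeasurableSet,
    prob_compl_eq_one_sub (hNm.prod hNm), Measure.prod_prod]
  have hF : cube k N = ENNReal.ofReal (F g k (z / (1 + e))) := by
    unfold F
    rw [ofReal_measureReal (measure_ne_top _ _)]
  rw [hF, ← ENNReal.ofReal_one, ← ENNReal.ofReal_mul (F_nonneg _ _ _), ← ENNReal.ofReal_sub]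
  · rw [sq]
  · exact mul_nonneg (F_nonneg _ _ _) (F_nonneg _ _ _)

theorem t_HYB : S_HYB := by
  intro k g G e z hg he he1 hz hG
  have h := steps (k := k) hg he he1 hz hG Finset.univ
  rw [om_empty, om_univ g he, ENNReal.ofReal_le_ofReal_iff] at h
  · exact h
  · have h1 := F_le_one g k (z / (1 + e))
    have h2 := F_nonneg g k (z / (1 + e))
    nlinarith

end Pool.Agent.Y301.CG
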