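import Pool.Agent.Y171.CG.Tool

/-!
# The event of a hit as a function of one player (cryptogenography project)
-/

open MeasureTheory Finset Set Filter Topology

namespace Pool.Agent.Y301.CG

open Pool.Agent.Y171.CG

/-- As a function of the coordinate and the mass of the player `i`, the event `Hit` is either
always true or of the form `t z < G y`. -/
theorem one {k : ℕ} (g : ℕ → ℝ) (hg : ∀ r, 2 ≤ r → 0 ≤ g r) (v u : Fin k → ℝ) (i : Fin k)
    (z : ℝ) (hz : 0 < z) : ∃ (b : Prop) (G : ℝ), 0 ≤ G ∧ (∀ C, (∀ r, 2 ≤ r → g r ≤ C) → G ≤ C) ∧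
      ∀ t y, 0 ≤ t → 0 ≤ y →
        (Hit g (Function.update v i y) z (Function.update u i t) ↔ b ∨ t * z < G * y) := by
  classical
  set a : ℕ → ℕ := fun r => ∑ j ∈ univ.erase i, if u j * z < g r * v j then 1 else 0 with ha
  have hcnt : ∀ (r : ℕ) (t y : ℝ), cnt (fun j => g r * Function.update v i y j) z
      (Function.update u i t) = a r + if t * z < g r * y then 1 else 0 := by
    intro r t y
    unfold cnt
    rw [Finset.card_filter, ← Finset.sum_erase_add _ _ (Finset.mem_univ i)]
    congr 1
    · rw [ha]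
      apply Finset.sum_congr rfl
      intro j hj
      have hji : j ≠ i := (Finset.mem_erase.1 hj).1
      simp [Function.update_of_ne hji]
    · simp
  have hak : ∀ r, a r ≤ k := by
    intro r
    calc a r ≤ ∑ j ∈ univ.erase i, 1 := by
          apply Finset.sum_le_sum
          intro j _
          split_ifs <;> simp
      _ ≤ k := by simp
  set S : Finset ℕ := (Finset.range (k + 2)).filter (fun r => 2 ≤ r ∧ a r + 1 = r) with hS
  refine ⟨∃ r, 2 ≤ r ∧ r ≤ a r, if h : S.Nonempty then S.sup' h g else 0, ?_, ?_, ?_⟩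
  · split_ifs with h
    · obtain ⟨r, hr⟩ := h
      have hr' := hr
      rw [hS, Finset.mem_filter] at hr'
      exact (hg r hr'.2.1).trans (Finset.le_sup' g hr)
    · exact le_rfl
  · intro C hC
    split_ifs with h
    · apply Finset.sup'_le
      intro r hr
      rw [hS, Finset.mem_filter] at hr
      exact hC r hr.2.1
    · exact (hg 2 le_rfl).trans (hC 2 le_rfl)
  · intro t y ht hy
    unfold Hit
    simp only [hcnt]
    constructor
    · rintro ⟨r, hr, hr'⟩
      by_cases hb : ∃ r, 2 ≤ r ∧ r ≤ a r
      · exact Or.inl hb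
      · right
        push Not at hb
        have h1 := hb r hr
        split_ifs at hr' with h2
        · have hrS : r ∈ S := by
            rw [hS, Finset.mem_filter, Finset.mem_range]
            have := hak r
            exact ⟨by omega, hr, by omega⟩
          have hne : S.Nonempty := ⟨r, hrS⟩
          rw [dif_pos hne]
          exact h2.trans_le (mul_le_mul_of_nonneg_right (Finset.le_sup' g hrS) hy)
        · omega
    · rintro (⟨r, hr, hr'⟩ | h)
      · exact ⟨r, hr, by omega⟩
      · split_ifs at h with hne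
        · obtain ⟨r, hrS, hr⟩ := Finset.exists_mem_eq_sup' hne g
          rw [hr] at h
          rw [hS, Finset.mem_filter] at hrS
          refine ⟨r, hrS.2.1, ?_⟩
          rw [if_pos h]
          omega
        · have : 0 ≤ t * z := mul_nonneg ht hz.le
          linarith

/-- Two predicates that agree on the unit interval have the same probability. -/
theorem nu_congr {p q : ℝ → Prop} (h : ∀ t, 0 ≤ t → t ≤ 1 → (p t ↔ q t)) :
    nu {t | p t} = nu {t | q t} := by
  unfold nu
  rw [Measure.restrict_apply' measurableSet_Icc, Measure.restrict_apply' measurableSet_Icc]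
  congr 1
  ext t
  simp only [Set.mem_inter_iff, Set.mem_ofPred_eq, Set.mem_Icc]
  constructor
  · rintro ⟨h1, h2, h3⟩
    exact ⟨(h t h2 h3).1 h1, h2, h3⟩
  · rintro ⟨h1, h2, h3⟩
    exact ⟨(h t h2 h3).2 h1, h2, h3⟩

/-- Probability of an interval. -/
theorem nu_Icc {a b : ℝ} (ha : 0 ≤ a) (hb : b ≤ 1) : nu (Set.Icc a b) = ENNReal.ofReal (b - a) := by
  unfold nu
  rw [Measure.restrict_apply' measurableSet_Icc]
  have : Set.Icc a b ∩ Set.Icc 0 1 = Set.Icc a b := by
    apply Set.inter_eq_left.2
    intro t ht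
    exact ⟨ha.trans ht.1, ht.2.trans hb⟩
  rw [this, Real.volume_Icc]

/-- Probability of the event of the player in the antithetic form. -/
theorem nu_anti {A C z : ℝ} (hA : 0 ≤ A) (hC : 0 ≤ C) (hz : 0 < z) :
    nu {t | t * z < A ∨ (1 - t) * z < C} = ENNReal.ofReal (min 1 ((A + C) / z)) := by
  have hAz : 0 ≤ A / z := div_nonneg hA hz.le
  have hCz : 0 ≤ C / z := div_nonneg hC hz.le
  have hset : {t : ℝ | t * z < A ∨ (1 - t) * z < C} = (Set.Icc (A / z) (1 - C / z))ᶜ := by
    ext t
    simp only [Set.mem_ofPred_eq, Set.mem_compl_iff, Set.mem_Icc, not_and_or, not_le]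
    rw [lt_div_iff₀ hz]
    have : (1 - t) * z < C ↔ 1 - C / z < t := by
      rw [← lt_div_iff₀ hz]
      constructor <;> intro h <;> linarith
    rw [this]
  rw [hset, prob_compl_eq_one_sub measurableSet_Icc, nu_Icc hAz (by linarith)]
  rw [← ENNReal.ofReal_one]
  by_cases h : 0 ≤ 1 - C / z - A / z
  · rw [← ENNReal.ofReal_sub _ h]
    congr 1
    rw [min_eq_right (by rw [add_div]; linarith), add_div]
    ring
  · push Not at h
    rw [ENNReal.ofReal_of_nonpos h.le, tsub_zero, min_eq_left (by rw [add_div]; linarith)]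

/-- Probability of `t z < A`. -/
theorem nu_lt {A z : ℝ} (hA : 0 ≤ A) (hz : 0 < z) (hAz : A ≤ z) :
    nu {t | t * z < A} = ENNReal.ofReal (A / z) := by
  have h := nu_anti hA le_rfl hz
  rw [add_zero, min_eq_right ((div_le_one hz).2 hAz)] at h
  rw [← h]
  apply nu_congr
  intro t _ ht1
  constructor
  · exact Or.inl
  · rintro (h1 | h1)
    · exact h1
    · have : 0 ≤ (1 - t) * z := mul_nonneg (by linarith) hz.le
      linarith

end Pool.Agent.Y301.CG
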